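import Pool.Agent.H259Z.Rich.RedDefs

/-! The surjectivity lemma `OntoStmt`. -/

set_option autoImplicit false

namespace Pool.Agent.H259Z.Rich

section Core

variable {G Q W : Type} [Group G] [Group Q] [AddCommGroup W] [Module (ZG Q) W]

/-- A crossed homomorphism vanishing on the kernel vanishes on the elements acting trivially,
provided there are no nonzero vectors fixed by the abelian normal subgroup `C`. -/
theorem onto_core_K (pr : G →* Q) (surj : Function.Surjective pr) (C : Subgroup Q)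
    (hC : C.Normal) (hab : ∀ a ∈ C, ∀ b ∈ C, a * b = b * a) (F : G → W)
    (hF : ∀ a b, F (a * b) = F a + oo (pr a) • F b) (hker : ∀ a, pr a = 1 → F a = 0)
    (hfix : ∀ u : W, (∀ q ∈ C, oo q • u = u) → u = 0) (k : G)
    (hk : ∀ u : W, oo (pr k) • u = u) : F k = 0 := by
  have h1 : F 1 = 0 := hker 1 (map_one pr)
  have hinv : ∀ g, F g + oo (pr g) • F g⁻¹ = 0 := fun g => by
    rw [← hF, mul_inv_cancel, h1]
  have hconj : ∀ g k : G, (∀ u : W, oo (pr k) • u = u) → F (g * k * g⁻¹) = oo (pr g) • F k := by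
    intro g k hk
    rw [mul_assoc, hF, hF, hk, smul_add, add_comm (oo (pr g) • F k), ← add_assoc, hinv, zero_add]
  have heq : ∀ a b : G, pr a = pr b → F a = F b := by
    intro a b hab'
    have e : a = (a * b⁻¹) * b := by group
    have h2 : pr (a * b⁻¹) = 1 := by rw [map_mul, map_inv, hab', mul_inv_cancel]
    rw [e, hF, hker _ h2, h2, map_one, one_smul, zero_add]
  have h2 : ∀ k : G, (∀ u : W, oo (pr k) • u = u) → pr k ∈ C → F k = 0 := by
    intro k hk hkC
    apply hfix
    intro q hq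
    obtain ⟨g, rfl⟩ := surj q
    rw [← hconj g k hk]
    apply heq
    rw [map_mul, map_mul, map_inv, hab _ hq _ hkC, mul_inv_cancel_right]
  apply hfix
  intro q hq
  obtain ⟨g, rfl⟩ := surj q
  rw [← hconj g k hk]
  have hk' : ∀ u : W, oo (pr k)⁻¹ • u = u := fun u => by
    conv_lhs => rw [← hk u]
    rw [smul_smul, oo_inv_mul, one_smul]
  have h3 : ∀ u : W, oo (pr (g * k * g⁻¹ * k⁻¹)) • u = u := fun u => by
    simp only [map_mul, map_inv, mul_smul]
    rw [hk', hk, smul_smul, oo_mul_inv, one_smul]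
  have h4 : pr (g * k * g⁻¹ * k⁻¹) ∈ C := by
    have e : pr (g * k * g⁻¹ * k⁻¹) = pr g * (pr k * (pr g)⁻¹ * (pr k)⁻¹) := by
      simp only [map_mul, map_inv, mul_assoc]
    rw [e]
    exact C.mul_mem hq (hC.conj_mem _ (C.inv_mem hq) _)
  have e : g * k * g⁻¹ = (g * k * g⁻¹ * k⁻¹) * k := by group
  rw [e, hF, h2 _ h3 h4, h3, zero_add]

theorem onto_core (pr : G →* Q) (surj : Function.Surjective pr) (C : Subgroup Q)
    (hC : C.Normal) (hab : ∀ a ∈ C, ∀ b ∈ C, a * b = b * a) (F : G → W)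
    (hF : ∀ a b, F (a * b) = F a + oo (pr a) • F b) (hker : ∀ a, pr a = 1 → F a = 0)
    (hfix : ∀ u : W, (∀ q ∈ C, oo q • u = u) → u = 0) (ζ : G) (lam : ℤ) (hζ : F ζ = 0)
    (hlam : ∀ u : W, oo (pr ζ) • u = lam • u) (g : G) : (lam - 1) • F g = 0 := by
  have h3 : ∀ u : W, oo (pr (ζ * g * ζ⁻¹ * g⁻¹)) • u = u := fun u => by
    simp only [map_mul, map_inv, mul_smul]
    rw [hlam, smul_comm lam, ← hlam, smul_smul (oo (pr ζ)), oo_mul_inv, one_smul, smul_smul,
      oo_mul_inv, one_smul]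
  have h4 := onto_core_K pr surj C hC hab F hF hker hfix _ h3
  have e : ζ * g = (ζ * g * ζ⁻¹ * g⁻¹) * (g * ζ) := by group
  have h5 : F (ζ * g) = F g := by
    rw [e, hF, h4, h3, zero_add, hF, hζ, smul_zero, add_zero]
  rw [hF, hζ, zero_add, hlam] at h5
  rw [sub_smul, h5, one_smul, sub_self]

/-- The conjugates of the norm element. -/
noncomputable def nuq (c : Q) (l : ℕ) (q : Q) : ZG Q :=
  ∑ j ∈ Finset.range l, oo (q * c ^ j * q⁻¹)

theorem nuq_comm (C : Subgroup Q) (hC : C.Normal) (hab : ∀ a ∈ C, ∀ b ∈ C, a * b = b * a)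
    {c : Q} (hc : c ∈ C) (l : ℕ) (q q' : Q) : Commute (nuq c l q) (nuq c l q') := by
  unfold nuq
  refine Commute.sum_left _ _ _ fun j _ => Commute.sum_right _ _ _ fun j' _ => ?_
  show _ * _ = _ * _
  rw [← map_mul, ← map_mul,
    hab _ (hC.conj_mem _ (C.pow_mem hc j) q) _ (hC.conj_mem _ (C.pow_mem hc j') q')]

theorem nuq_list (C : Subgroup Q) (hC : C.Normal) (hab : ∀ a ∈ C, ∀ b ∈ C, a * b = b * a)
    {c : Q} (hc : c ∈ C) (l : ℕ) (J : Submodule (ZG Q) (ZG Q))
    (hJ : (∑ j ∈ Finset.range l, oo (c ^ j)) ∈ J) (f : ZG Q) :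
    ∃ L : List Q, (L.map (nuq c l)).prod * f ∈ J := by
  induction f using MonoidAlgebra.induction_linear with
  | zero => exact ⟨[], by simp⟩
  | add f g hf hg =>
    obtain ⟨L1, h1⟩ := hf
    obtain ⟨L2, h2⟩ := hg
    refine ⟨L1 ++ L2, ?_⟩
    have hc' : Commute (L1.map (nuq c l)).prod (L2.map (nuq c l)).prod := by
      refine Commute.list_prod_left _ _ fun x hx => Commute.list_prod_right _ _ fun y hy => ?_
      obtain ⟨q, -, rfl⟩ := List.mem_map.1 hx
      obtain ⟨q', -, rfl⟩ := List.mem_map.1 hy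
      exact nuq_comm C hC hab hc l q q'
    rw [List.map_append, List.prod_append, mul_add]
    refine J.add_mem ?_ ?_
    · rw [hc'.eq, mul_assoc]
      exact J.smul_mem _ h1
    · rw [mul_assoc]
      exact J.smul_mem _ h2
  | single q n =>
    refine ⟨[q], ?_⟩
    have e1 : (MonoidAlgebra.single q n : ZG Q) = n • oo q := by simp [oo_apply]
    have e2 : nuq c l q * oo q = oo q * ∑ j ∈ Finset.range l, oo (c ^ j) := by
      unfold nuq
      rw [Finset.sum_mul, Finset.mul_sum]
      refine Finset.sum_congr rfl fun j _ => ?_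
      rw [← map_mul, ← map_mul, inv_mul_cancel_right]
    rw [List.map_singleton, List.prod_singleton, e1, mul_smul_comm, e2]
    exact J.smul_of_tower_mem n (J.smul_mem _ hJ)

theorem nuq_fix (C : Subgroup Q) (hC : C.Normal) {c : Q} (hc : c ∈ C) (l : ℕ) (u : W)
    (hu : ∀ q ∈ C, oo q • u = u) (L : List Q) :
    (L.map (nuq c l)).prod • u = l ^ L.length • u := by
  induction L with
  | nil => simp
  | cons q L ih =>
    have e : nuq c l q • u = l • u := by
      unfold nuq
      rw [Finset.sum_smul, Finset.sum_congr rfl fun j _ => hu _ (hC.conj_mem _ (C.pow_mem hc j) q)]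
      simp
    rw [List.map_cons, List.prod_cons, mul_smul, ih, smul_comm, e, smul_smul, List.length_cons,
      pow_succ]

theorem zero_of_coprime {p : ℕ} (hp : p.Prime) {a : ℤ} (ha : ¬ (p : ℤ) ∣ a) (u : W)
    (h1 : (p : ℤ) • u = 0) (h2 : a • u = 0) : u = 0 := by
  have hc : IsCoprime (p : ℤ) a :=
    (Nat.prime_iff_prime_int.1 hp).irreducible.coprime_iff_not_dvd.2 ha
  obtain ⟨x, y, hxy⟩ := hc
  rw [← one_smul ℤ u, ← hxy, add_smul, mul_smul, mul_smul, h1, h2, smul_zero, smul_zero, add_zero]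

end Core

theorem onto : OntoStmt := by
  intro r G Q _ _ S C hC hab c hc l p o lam hp hl hlam i1 i2 α hα2 hα1 J hpJ hνJ hζJ
  classical
  let rho : G → ZG Q := fun g => ∑ i, α i • S.der g i
  have rho_mul : ∀ a b, rho (a * b) = rho a + oo (S.pr a) * rho b := by
    intro a b
    simp only [rho, S.der_mul, Pi.add_apply, Pi.smul_apply, smul_eq_mul, smul_add,
      Finset.sum_add_distrib, Finset.mul_sum, mul_smul_comm]
  have rho_one : rho 1 = 0 := by simp [rho, S.der_one]
  have rho_x : ∀ j, rho (S.x j) = α j • (1 : ZG Q) := by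
    intro j
    simp only [rho, S.der_x]
    rw [Finset.sum_eq_single j]
    · simp
    · intro b _ hb
      simp [hb]
    · simp
  have rho_smul : ∀ (f : ZG Q) (a : G), S.pr a = 1 → ∃ t, S.pr t = 1 ∧ rho t = f * rho a := by
    intro f a ha
    induction f using MonoidAlgebra.induction_linear with
    | zero => exact ⟨1, map_one _, by rw [rho_one, zero_mul]⟩
    | add f g hf hg =>
      obtain ⟨t1, h1, e1⟩ := hf
      obtain ⟨t2, h2, e2⟩ := hg
      refine ⟨t1 * t2, by rw [map_mul, h1, h2, mul_one], ?_⟩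
      rw [rho_mul, h1, map_one, one_mul, e1, e2, add_mul]
    | single q n =>
      obtain ⟨g, rfl⟩ := S.surj q
      have h1 : S.pr (g * a * g⁻¹) = 1 := by
        rw [map_mul, map_mul, ha, mul_one, map_inv, mul_inv_cancel]
      refine ⟨(g * a * g⁻¹) ^ n, by rw [map_zpow, h1, one_zpow], ?_⟩
      have e1 : (MonoidAlgebra.single (S.pr g) n : ZG Q) = n • oo (S.pr g) := by simp [oo_apply]
      simp only [rho]
      rw [S.der_zpow_ker h1, S.der_conj g ha, e1, Finset.mul_sum]
      refine Finset.sum_congr rfl fun i _ => ?_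
      rw [Pi.smul_apply, Pi.smul_apply, smul_eq_mul, smul_mul_assoc, mul_smul_comm, smul_comm]
  let N : Submodule (ZG Q) (ZG Q) :=
    { carrier := {f | ∃ t, S.pr t = 1 ∧ rho t - f ∈ J}
      add_mem' := by
        rintro f g ⟨t1, h1, e1⟩ ⟨t2, h2, e2⟩
        refine ⟨t1 * t2, by rw [map_mul, h1, h2, mul_one], ?_⟩
        rw [rho_mul, h1, map_one, one_mul, add_sub_add_comm]
        exact J.add_mem e1 e2
      zero_mem' := ⟨1, map_one _, by rw [rho_one, sub_zero]; exact J.zero_mem⟩
      smul_mem' := by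
        rintro f g ⟨t, h1, e1⟩
        obtain ⟨t', h2, e2⟩ := rho_smul f t h1
        refine ⟨t', h2, ?_⟩
        rw [e2, smul_eq_mul, ← mul_sub]
        exact J.smul_mem _ e1 }
  have hJN : ∀ f ∈ J, f ∈ N := fun f hf =>
    ⟨1, map_one _, by rw [rho_one, zero_sub]; exact J.neg_mem hf⟩
  let F : G → (ZG Q ⧸ N) := fun g => N.mkQ (rho g)
  have hF : ∀ a b, F (a * b) = F a + oo (S.pr a) • F b := by
    intro a b
    simp only [F]
    rw [rho_mul, map_add, ← map_smul, smul_eq_mul]
  have hker : ∀ a, S.pr a = 1 → F a = 0 := by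
    intro a ha
    simp only [F]
    rw [Submodule.mkQ_apply, Submodule.Quotient.mk_eq_zero]
    exact ⟨a, ha, by rw [sub_self]; exact J.zero_mem⟩
  have hpW : ∀ u : ZG Q ⧸ N, (p : ℤ) • u = 0 := by
    intro u
    obtain ⟨f, rfl⟩ := N.mkQ_surjective u
    rw [← map_zsmul, Submodule.mkQ_apply, Submodule.Quotient.mk_eq_zero]
    apply hJN
    have e : (p : ℤ) • f = f * (p : ZG Q) := by
      rw [natCast_zsmul, nsmul_eq_mul, (Nat.cast_commute p f).eq]
    rw [e]
    exact J.smul_mem _ hpJ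
  have hfix : ∀ u : ZG Q ⧸ N, (∀ q ∈ C, oo q • u = u) → u = 0 := by
    intro u hu
    obtain ⟨f, rfl⟩ := N.mkQ_surjective u
    obtain ⟨L, hL⟩ := nuq_list C hC hab hc l J hνJ f
    have h1 := nuq_fix C hC hc l _ hu L
    rw [← map_smul, smul_eq_mul, Submodule.mkQ_apply,
      (Submodule.Quotient.mk_eq_zero N).2 (hJN _ hL)] at h1
    refine zero_of_coprime hp (a := ((l ^ L.length : ℕ) : ℤ)) ?_ _ (hpW _) ?_
    · intro h
      exact hl (hp.dvd_of_dvd_pow (Int.natCast_dvd_natCast.1 h))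
    · rw [natCast_zsmul]
      exact h1.symm
  have hζ : ∀ n : ℕ, F (S.x i2 ^ n) = 0 := by
    intro n
    induction n with
    | zero => exact hker _ (by simp)
    | succ n ih =>
      have h0 : F (S.x i2) = 0 := by
        simp only [F]
        rw [rho_x, hα2, zero_smul, map_zero]
      rw [pow_succ, hF, ih, h0, smul_zero, add_zero]
  have hlamW : ∀ u : ZG Q ⧸ N, oo (S.pr (S.x i2 ^ o)) • u = lam • u := by
    intro u
    obtain ⟨f, rfl⟩ := N.mkQ_surjective u
    induction f using MonoidAlgebra.induction_linear with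
    | zero => simp
    | add f g hf hg => rw [map_add, smul_add, smul_add, hf, hg]
    | single q n =>
      have e1 : (MonoidAlgebra.single q n : ZG Q) = n • oo q := by simp [oo_apply]
      rw [e1, map_zsmul, smul_comm, smul_comm lam n]
      congr 1
      rw [← map_smul, ← map_zsmul, ← sub_eq_zero, ← map_sub, Submodule.mkQ_apply,
        Submodule.Quotient.mk_eq_zero, smul_eq_mul, ← map_mul, map_pow]
      exact hJN _ (hζJ q)
  have h1 := onto_core S.pr S.surj C hC hab F hF hker hfix _ lam (hζ o) hlamW (S.x i1)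
  have h2 := zero_of_coprime hp hlam _ (hpW _) h1
  simp only [F] at h2
  rw [rho_x, map_zsmul] at h2
  have h3 := zero_of_coprime hp hα1 _ (hpW _) h2
  rw [Submodule.mkQ_apply, Submodule.Quotient.mk_eq_zero] at h3
  exact h3

end Pool.Agent.H259Z.Rich
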